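import Mathlib
import Pool.Agent.Lib.Pb4ed41.Final

/-!
# A multiple correlation sequence far from all integral combinations of nilsequences

For every `ℓ ≥ 3` there are a probability space, powers `T₁, …, T_ℓ` of one invertible measure
preserving transformation and unimodular functions `f₀, …, f_ℓ` such that the correlation sequence
`C(n₁, …, n_ℓ) = ∫ f₀ · T₁^{n₁} f₁ ⋯ T_ℓ^{n_ℓ} f_ℓ dμ` has uniform distance at least `1` from every
integral combination of multi-variable nilsequences of arbitrary step.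
-/

open MeasureTheory Filter Topology Manifold
open scoped ContDiff

namespace Pool.Agent.Results.MP_b4ed41_an.NotNilCombination

/-- `T₁, …, T_ℓ` are commuting invertible measure preserving transformations of the probability
space `(X, μ)`. -/
structure IsSystem {X : Type} [MeasurableSpace X] (μ : Measure X) {ℓ : ℕ}
    (T : Fin ℓ → Equiv.Perm X) : Prop where
  isProbabilityMeasure : IsProbabilityMeasure μ
  measurePreserving : ∀ i, MeasurePreserving (T i) μ μ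
  measurable_symm : ∀ i, Measurable (T i).symm
  commute : ∀ i j, Commute (T i) (T j)

/-- The multiple correlation sequence `C(n₁, …, n_ℓ) = ∫ f₀ · T₁^{n₁} f₁ ⋯ T_ℓ^{n_ℓ} f_ℓ dμ`. -/
noncomputable def corr {X : Type} [MeasurableSpace X] (μ : Measure X) {ℓ : ℕ}
    (T : Fin ℓ → Equiv.Perm X) (f₀ : X → ℂ) (f : Fin ℓ → X → ℂ) (n : Fin ℓ → ℤ) : ℂ :=
  ∫ x, f₀ x * ∏ i, f i ((T i ^ n i) x) ∂μ

/-- Basic nilsequences in `ℓ` variables: `n ↦ F(b₁^{n₁} ⋯ b_ℓ^{n_ℓ} z)`, where `G` is a nilpotent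
Lie group of finite dimension (not necessarily connected), `Γ` is a discrete cocompact subgroup,
`z ∈ G/Γ` and `F : G/Γ → ℂ` is continuous. -/
def IsBasicNilsequence {ℓ : ℕ} (N : (Fin ℓ → ℤ) → ℂ) : Prop :=
  ∃ (d : ℕ) (G : Type) (_ : TopologicalSpace G) (_ : ChartedSpace (EuclideanSpace ℝ (Fin d)) G)
    (_ : Group G) (_ : LieGroup 𝓘(ℝ, EuclideanSpace ℝ (Fin d)) ∞ G) (_ : T2Space G)
    (Γ : Subgroup G) (b : Fin ℓ → G) (z : G ⧸ Γ) (F : G ⧸ Γ → ℂ),
    Group.IsNilpotent G ∧ DiscreteTopology Γ ∧ CompactSpace (G ⧸ Γ) ∧ Continuous F ∧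
    ∀ n, N n = F ((List.ofFn fun i => b i ^ n i).prod • z)

/-- Multi-variable nilsequences: uniform limits on `ℤ^ℓ` of basic nilsequences (of any steps). -/
def IsNilsequence {ℓ : ℕ} (N : (Fin ℓ → ℤ) → ℂ) : Prop :=
  ∀ ε : ℝ, 0 < ε → ∃ N' : (Fin ℓ → ℤ) → ℂ, IsBasicNilsequence N' ∧ ∀ n, ‖N n - N' n‖ ≤ ε

/-- The integral of `f` against the complex measure `σ`. -/
noncomputable def complexIntegral {Y : Type} [MeasurableSpace Y] (σ : ComplexMeasure Y)
    (f : Y → ℂ) : ℂ :=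
  σ.integral f (ContinuousLinearMap.mul ℝ ℂ)

/-- `D` is an integral combination of multi-variable nilsequences: `D(n) = ∫ N_y(n) dσ(y)` for a
complex measure `σ` on a measurable space `Y` and nilsequences `N_y` such that `y ↦ N_y(n)` is
measurable for every `n` and `sup_n |N_y(n)|` is dominated by a `|σ|`-integrable function. -/
def IsNilCombination {ℓ : ℕ} (D : (Fin ℓ → ℤ) → ℂ) : Prop :=
  ∃ (Y : Type) (_ : MeasurableSpace Y) (σ : ComplexMeasure Y) (N : Y → (Fin ℓ → ℤ) → ℂ)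
    (b : Y → ℝ),
    (∀ y, IsNilsequence (N y)) ∧
    (∀ n, AEStronglyMeasurable (fun y => N y n) σ.variation) ∧
    Integrable b σ.variation ∧ (∀ y n, ‖N y n‖ ≤ b y) ∧
    ∀ n, D n = complexIntegral σ fun y => N y n

lemma decay_basic {ℓ : ℕ} {N : (Fin ℓ → ℤ) → ℂ} (hN : IsBasicNilsequence N) :
    Tendsto (fun j => Lib.Pb4ed41.lam j fun n : ℕ => N fun _ => (n : ℤ)) atTop (𝓝 0) := by
  obtain ⟨d, G, _, _, _, _, _, Γ, b, z, F, hnil, hdisc, hcpt, hF, hNF⟩ := hN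
  obtain ⟨g0, rfl⟩ := QuotientGroup.mk_surjective z
  have : LieGroup 𝓘(ℝ, EuclideanSpace ℝ (Fin d)) 1 G :=
    LieGroup.of_le (m := 1) (n := ∞) (by exact_mod_cast le_top)
  have h := Lib.Pb4ed41.decay_core (E := EuclideanSpace ℝ (Fin d)) Γ F hF (List.ofFn b) g0
  refine h.congr fun j => ?_
  congr 1
  funext n
  rw [hNF, List.map_ofFn]
  simp only [zpow_natCast]
  rfl

lemma decay {ℓ : ℕ} {N : (Fin ℓ → ℤ) → ℂ} (hN : IsNilsequence N) :
    Tendsto (fun j => Lib.Pb4ed41.lam j fun n : ℕ => N fun _ => (n : ℤ)) atTop (𝓝 0) := by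
  rw [Metric.tendsto_atTop]
  intro ε hε
  obtain ⟨N', hN', hclose⟩ := hN (ε / 2) (by positivity)
  obtain ⟨j0, hj0⟩ := (Metric.tendsto_atTop.mp (decay_basic hN')) (ε / 2) (by positivity)
  refine ⟨max j0 1, fun j hj => ?_⟩
  have h1 := hj0 j ((le_max_left _ _).trans hj)
  have hj1 : 1 ≤ j := (le_max_right _ _).trans hj
  rw [dist_zero_right] at h1 ⊢
  have h2 := Lib.Pb4ed41.lam_sub j (fun n : ℕ => N fun _ => (n : ℤ))
    (fun n : ℕ => N' fun _ => (n : ℤ))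
  have h3 := Lib.Pb4ed41.norm_lam_le hj1
    (N := fun n : ℕ => (N fun _ => (n : ℤ)) - N' fun _ => (n : ℤ)) (c := ε / 2)
    (fun n => hclose _)
  rw [h2] at h3
  calc ‖Lib.Pb4ed41.lam j fun n : ℕ => N fun _ => (n : ℤ)‖
      = ‖((Lib.Pb4ed41.lam j fun n : ℕ => N fun _ => (n : ℤ)) -
          Lib.Pb4ed41.lam j fun n : ℕ => N' fun _ => (n : ℤ)) +
          Lib.Pb4ed41.lam j fun n : ℕ => N' fun _ => (n : ℤ)‖ := by rw [sub_add_cancel]
    _ ≤ _ := norm_add_le _ _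
    _ < ε / 2 + ε / 2 := by linarith
    _ = ε := by ring

/-- For every `ℓ ≥ 3` there is a system of `ℓ` commuting transformations, all powers of one
transformation `S`, and unimodular measurable functions, whose multiple correlation sequence is not
an integral combination of multi-variable nilsequences; it even has distance at least `1`, already
on the diagonal `n₁ = ⋯ = n_ℓ`, from each such combination. -/
theorem result (ℓ : ℕ) (hℓ : 3 ≤ ℓ) :
    ∃ (X : Type) (_ : MeasurableSpace X) (μ : Measure X) (T : Fin ℓ → Equiv.Perm X)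
      (S : Equiv.Perm X) (f₀ : X → ℂ) (f : Fin ℓ → X → ℂ),
      IsSystem μ T ∧ (∀ i, T i ∈ Subgroup.zpowers S) ∧
      Measurable f₀ ∧ (∀ x, ‖f₀ x‖ = 1) ∧ (∀ i, Measurable (f i)) ∧ (∀ i x, ‖f i x‖ = 1) ∧
      ¬ IsNilCombination (corr μ T f₀ f) ∧
      ∀ D : (Fin ℓ → ℤ) → ℂ, IsNilCombination D → ∀ c : ℝ, c < 1 →
        ∃ n : ℕ, c < ‖corr μ T f₀ f (fun _ => (n : ℤ)) - D fun _ => (n : ℤ)‖ := by
  obtain ⟨r, rfl⟩ := Nat.exists_eq_add_of_le' hℓ
  have key : ∀ D : (Fin (r+3) → ℤ) → ℂ, IsNilCombination D → ∀ c : ℝ, c < 1 →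
      ∃ n : ℕ, c < ‖corr Lib.Pb4ed41.muX (Lib.Pb4ed41.Ti (r := r)) Lib.Pb4ed41.f0
        Lib.Pb4ed41.fi (fun _ => (n : ℤ)) - D fun _ => (n : ℤ)‖ := by
    rintro D ⟨Y, _, σ, N, b, hN, hm, hb, hNb, hD⟩ c hc
    by_contra hcon
    push Not at hcon
    have h1 := Lib.Pb4ed41.tendsto_lam_CC r
    have h2 := Lib.Pb4ed41.tendsto_lam_cI σ (fun y (n : ℕ) => N y fun _ => (n : ℤ)) b
      (fun n => hm _) hb (fun y n => hNb y _) (fun y => decay (hN y))
    have h3 := h1.sub h2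
    have h4 : Tendsto (fun j => ‖(Lib.Pb4ed41.lam j fun n : ℕ => Lib.Pb4ed41.CC r fun _ => (n : ℤ)) -
        Lib.Pb4ed41.lam j fun n : ℕ => Lib.Pb4ed41.cI σ fun y => N y fun _ => (n : ℤ)‖)
        atTop (𝓝 1) := by
      have := h3.norm
      simpa using this
    have h5 : ∀ᶠ j in atTop, ‖(Lib.Pb4ed41.lam j fun n : ℕ => Lib.Pb4ed41.CC r fun _ => (n : ℤ)) -
        Lib.Pb4ed41.lam j fun n : ℕ => Lib.Pb4ed41.cI σ fun y => N y fun _ => (n : ℤ)‖ ≤ c := by
      filter_upwards [eventually_ge_atTop 1] with j hj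
      rw [← Lib.Pb4ed41.lam_sub]
      apply Lib.Pb4ed41.norm_lam_le hj
      intro n
      have h6 := hcon n
      rw [hD] at h6
      exact h6
    have h6 := le_of_tendsto h4 h5
    linarith
  refine ⟨Lib.Pb4ed41.KK × ZMod 5, inferInstance, Lib.Pb4ed41.muX, Lib.Pb4ed41.Ti,
    Lib.Pb4ed41.TT, Lib.Pb4ed41.f0, Lib.Pb4ed41.fi, ?_, ?_, Lib.Pb4ed41.measurable_f0, ?_,
    Lib.Pb4ed41.measurable_fi, ?_, ?_, key⟩
  · refine ⟨inferInstance, fun i => Lib.Pb4ed41.mp_TT_pow _, fun i =>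
      Lib.Pb4ed41.measurable_TT_pow_symm _, fun i j => ?_⟩
    exact (Commute.refl Lib.Pb4ed41.TT).pow_pow _ _
  · intro i
    exact Subgroup.mem_zpowers_iff.mpr ⟨_, zpow_natCast _ _⟩
  · intro x
    exact Lib.Pb4ed41.norm_chi _
  · intro i x
    exact Lib.Pb4ed41.norm_chi _
  · intro hcomb
    obtain ⟨n, hn⟩ := key _ hcomb 0 zero_lt_one
    rw [sub_self, norm_zero] at hn
    exact lt_irrefl _ hn

end Pool.Agent.Results.MP_b4ed41_an.NotNilCombination
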